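import Pool.Agent.J4H61.QB.Stm3

set_option autoImplicit false

/-! Project QB (helper61), pieces KRD and DPS: Kraus operators of the channels of the ensemble. -/

open Matrix MeasureTheory
open scoped ComplexOrder

namespace Pool.Agent.J4H91.QB
open Pool.Agent.V11219.MomentOp Pool.Agent.J4H61.QB

/-- the Kraus operators -/
noncomputable def kr {d dE : ℕ} (ψ : Fin dE → ℂ) (V : Matrix (Fin d × Fin dE) (Fin d × Fin dE) ℂ) (x : Fin dE) :
    Mat d := Matrix.of fun k i => ∑ y, V (k, x) (i, y) * ψ y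

theorem dilated_apply {d dE : ℕ} (ψ : Fin dE → ℂ) (V : Matrix (Fin d × Fin dE) (Fin d × Fin dE) ℂ) (X : Mat d)
    (k l : Fin d) : dilated ψ V X k l = ∑ x, ∑ i, ∑ j, kr ψ V x k i * X i j * star (kr ψ V x l j) := by
  show ∑ x : Fin dE, (V * (Matrix.kronecker X (Matrix.vecMulVec ψ (star ψ))) * Vᴴ) (k, x) (l, x) = _
  refine Finset.sum_congr rfl fun x _ => ?_
  rw [Matrix.mul_apply]
  simp only [Matrix.mul_apply, Fintype.sum_prod_type, Matrix.kronecker, Matrix.kroneckerMap_apply,
    Matrix.vecMulVec_apply, Pi.star_apply, Matrix.conjTranspose_apply, kr, Matrix.of_apply, star_sum, star_mul',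
    Finset.sum_mul, Finset.mul_sum]
  rw [Finset.sum_comm]
  have h1 : ∀ y : Fin dE, (∑ j : Fin d, ∑ i : Fin d, ∑ z : Fin dE,
      V (k, x) (i, z) * (X i j * (ψ z * star (ψ y))) * star (V (l, x) (j, y))) =
      ∑ i : Fin d, ∑ j : Fin d, ∑ z : Fin dE,
      V (k, x) (i, z) * (X i j * (ψ z * star (ψ y))) * star (V (l, x) (j, y)) := fun y => Finset.sum_comm
  rw [Finset.sum_congr rfl (fun y _ => h1 y), Finset.sum_comm]
  refine Finset.sum_congr rfl fun i _ => ?_
  rw [Finset.sum_comm]
  refine Finset.sum_congr rfl fun j _ => ?_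
  refine Finset.sum_congr rfl fun y _ => ?_
  refine Finset.sum_congr rfl fun z _ => ?_
  ring

theorem dilated_eq {d dE : ℕ} (ψ : Fin dE → ℂ) (V : Matrix (Fin d × Fin dE) (Fin d × Fin dE) ℂ) (X : Mat d) :
    dilated ψ V X = ∑ x, kr ψ V x * X * (kr ψ V x)ᴴ := by
  ext k l
  rw [dilated_apply, Matrix.sum_apply]
  refine Finset.sum_congr rfl fun x _ => ?_
  rw [Matrix.mul_apply, Finset.sum_comm]
  refine Finset.sum_congr rfl fun j _ => ?_
  rw [Matrix.mul_apply, Finset.sum_mul, Matrix.conjTranspose_apply]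

theorem kr_one {d dE : ℕ} (ψ : Fin dE → ℂ) (hψ : ∑ x, ‖ψ x‖ ^ 2 = 1)
    (V : Matrix.unitaryGroup (Fin d × Fin dE) ℂ) (i j : Fin d) :
    ∑ x, ∑ k, star (kr ψ (V : Matrix (Fin d × Fin dE) (Fin d × Fin dE) ℂ) x k i) *
      kr ψ (V : Matrix (Fin d × Fin dE) (Fin d × Fin dE) ℂ) x k j = if i = j then 1 else 0 := by
  set W : Matrix (Fin d × Fin dE) (Fin d × Fin dE) ℂ := (V : Matrix (Fin d × Fin dE) (Fin d × Fin dE) ℂ) with hW
  have hV : Wᴴ * W = 1 := Matrix.mem_unitaryGroup_iff'.1 V.2
  have h1 : ∀ y z : Fin dE, ∑ p : Fin d × Fin dE, star (W p (i, y)) * W p (j, z) =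
      if (i, y) = (j, z) then 1 else 0 := by
    intro y z
    rw [← Matrix.one_apply, ← hV, Matrix.mul_apply]
    rfl
  have h2 : ∑ x, ∑ k, star (kr ψ W x k i) * kr ψ W x k j =
      ∑ p : Fin d × Fin dE, (∑ y, star (W p (i, y)) * star (ψ y)) * (∑ z, W p (j, z) * ψ z) := by
    rw [Fintype.sum_prod_type, Finset.sum_comm]
    refine Finset.sum_congr rfl fun k _ => Finset.sum_congr rfl fun x _ => ?_
    simp only [kr, Matrix.of_apply, star_sum, star_mul']
  have h3 : ∑ p : Fin d × Fin dE, (∑ y, star (W p (i, y)) * star (ψ y)) * (∑ z, W p (j, z) * ψ z) =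
      ∑ y, ∑ z, star (ψ y) * ψ z * ∑ p : Fin d × Fin dE, star (W p (i, y)) * W p (j, z) := by
    simp only [Finset.sum_mul_sum]
    rw [Finset.sum_comm]
    refine Finset.sum_congr rfl fun y _ => ?_
    rw [Finset.sum_comm]
    refine Finset.sum_congr rfl fun z _ => ?_
    rw [Finset.mul_sum]
    refine Finset.sum_congr rfl fun p _ => ?_
    ring
  rw [h2, h3]
  simp only [h1]
  by_cases hij : i = j
  · subst hij
    rw [if_pos rfl]
    have h4 : ∀ y : Fin dE, ∑ z, star (ψ y) * ψ z * (if (i, y) = (i, z) then (1 : ℂ) else 0) =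
        ((‖ψ y‖ ^ 2 : ℝ) : ℂ) := by
      intro y
      rw [Finset.sum_eq_single y]
      · rw [if_pos rfl, mul_one, mul_comm]
        have := Complex.mul_conj (ψ y)
        rw [Complex.normSq_eq_norm_sq] at this
        exact this
      · intro z _ hz
        rw [if_neg (fun h => hz (congrArg Prod.snd h).symm), mul_zero]
      · intro h
        exact absurd (Finset.mem_univ _) h
    rw [Finset.sum_congr rfl (fun y _ => h4 y), ← Complex.ofReal_sum, hψ, Complex.ofReal_one]
  · rw [if_neg hij]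
    refine Finset.sum_eq_zero fun y _ => Finset.sum_eq_zero fun z _ => ?_
    rw [if_neg (fun h => hij (congrArg Prod.fst h)), mul_zero]

theorem t_DPS : S_DPS := by
  intro d dE ψ hψ V X hX
  constructor
  · rw [dilated_eq]
    refine Finset.sum_induction _ (fun M : Mat d => M.PosSemidef) (fun _ _ => Matrix.PosSemidef.add)
      Matrix.PosSemidef.zero fun x _ => ?_
    exact hX.mul_mul_conjTranspose_same _
  · rw [dilated_eq, Matrix.trace_sum]
    have h1 : ∀ x : Fin dE, Matrix.trace (kr ψ (V : Matrix (Fin d × Fin dE) (Fin d × Fin dE) ℂ) x * X *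
        (kr ψ (V : Matrix (Fin d × Fin dE) (Fin d × Fin dE) ℂ) x)ᴴ) =
        Matrix.trace ((kr ψ (V : Matrix (Fin d × Fin dE) (Fin d × Fin dE) ℂ) x)ᴴ *
        kr ψ (V : Matrix (Fin d × Fin dE) (Fin d × Fin dE) ℂ) x * X) := by
      intro x
      rw [Matrix.trace_mul_comm, ← Matrix.mul_assoc]
    rw [Finset.sum_congr rfl (fun x _ => h1 x), ← Matrix.trace_sum, ← Finset.sum_mul]
    have h2 : ∑ x, (kr ψ (V : Matrix (Fin d × Fin dE) (Fin d × Fin dE) ℂ) x)ᴴ *
        kr ψ (V : Matrix (Fin d × Fin dE) (Fin d × Fin dE) ℂ) x = 1 := by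
      ext i j
      rw [Matrix.sum_apply, Matrix.one_apply, ← kr_one ψ hψ V i j]
      refine Finset.sum_congr rfl fun x _ => ?_
      rw [Matrix.mul_apply]
      rfl
    rw [h2, Matrix.one_mul]

/-- the Kraus operators of the tensor power -/
noncomputable def krt {d dE t : ℕ} (ψ : Fin dE → ℂ) (V : Matrix (Fin d × Fin dE) (Fin d × Fin dE) ℂ)
    (x : Fin t → Fin dE) : MatT d t := Matrix.of fun k i => ∏ s, kr ψ V (x s) (k s) (i s)

theorem prod_sum_sum {d dE t : ℕ} (g : Fin t → Fin dE → Fin d → ℂ) :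
    ∏ s, ∑ x, ∑ k, g s x k = ∑ x : Fin t → Fin dE, ∑ k : Fin t → Fin d, ∏ s, g s (x s) (k s) := by
  rw [Finset.prod_univ_sum, Fintype.piFinset_univ]
  refine Finset.sum_congr rfl fun x _ => ?_
  rw [Finset.prod_univ_sum, Fintype.piFinset_univ]

theorem t_KRD : S_KRD := by
  intro t d dE ψ hψ V
  set W : Matrix (Fin d × Fin dE) (Fin d × Fin dE) ℂ := (V : Matrix (Fin d × Fin dE) (Fin d × Fin dE) ℂ) with hW
  refine ⟨fun x => krt ψ W x, ?_, ?_⟩
  · ext i j
    rw [Matrix.sum_apply]
    have h1 : ∀ x : Fin t → Fin dE, ((krt ψ W x)ᴴ * krt ψ W x) i j =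
        ∑ k : Fin t → Fin d, ∏ s, (star (kr ψ W (x s) (k s) (i s)) * kr ψ W (x s) (k s) (j s)) := by
      intro x
      rw [Matrix.mul_apply]
      refine Finset.sum_congr rfl fun k _ => ?_
      rw [Matrix.conjTranspose_apply, krt, Matrix.of_apply, Matrix.of_apply, star_prod, ← Finset.prod_mul_distrib]
    rw [Finset.sum_congr rfl (fun x _ => h1 x),
      ← prod_sum_sum (fun s x k => star (kr ψ W x k (i s)) * kr ψ W x k (j s))]
    simp only [hW, kr_one ψ hψ V]
    rw [Matrix.one_apply]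
    by_cases hij : i = j
    · subst hij
      simp
    · rw [if_neg hij]
      obtain ⟨s, hs⟩ := Function.ne_iff.1 hij
      exact Finset.prod_eq_zero (Finset.mem_univ s) (if_neg hs)
  · intro X
    ext k l
    show ∑ i : Fin t → Fin d, ∑ j : Fin t → Fin d, X i j *
      ∏ s, dilated ψ W (Matrix.single (i s) (j s) 1) (k s) (l s) = _
    have h1 : ∀ (i j : Fin d) (k l : Fin d), dilated ψ W (Matrix.single i j 1) k l =
        ∑ x, kr ψ W x k i * star (kr ψ W x l j) := by
      intro i j k l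
      rw [dilated_apply]
      refine Finset.sum_congr rfl fun x _ => ?_
      rw [Finset.sum_eq_single i]
      · rw [Finset.sum_eq_single j]
        · rw [Matrix.single_apply_same, mul_one]
        · intro j' _ hj'
          rw [Matrix.single_apply_of_ne, mul_zero, zero_mul]
          exact fun h => hj' h.2.symm
        · intro h
          exact absurd (Finset.mem_univ _) h
      · intro i' _ hi'
        refine Finset.sum_eq_zero fun j' _ => ?_
        rw [Matrix.single_apply_of_ne, mul_zero, zero_mul]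
        exact fun h => hi' h.1.symm
      · intro h
        exact absurd (Finset.mem_univ _) h
    simp only [h1]
    rw [Matrix.sum_apply]
    have h2 : ∀ i j : Fin t → Fin d, X i j * ∏ s, ∑ x, kr ψ W x (k s) (i s) * star (kr ψ W x (l s) (j s)) =
        ∑ x : Fin t → Fin dE, krt ψ W x k i * X i j * star (krt ψ W x l j) := by
      intro i j
      rw [Finset.prod_univ_sum, Fintype.piFinset_univ, Finset.mul_sum]
      refine Finset.sum_congr rfl fun x _ => ?_
      rw [krt, Matrix.of_apply, Matrix.of_apply, star_prod, Finset.prod_mul_distrib]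
      ring
    rw [Finset.sum_congr rfl (fun i _ => (Finset.sum_congr rfl (fun j _ => h2 i j)).trans Finset.sum_comm),
      Finset.sum_comm]
    refine Finset.sum_congr rfl fun x _ => ?_
    rw [Matrix.mul_apply, Finset.sum_comm]
    refine Finset.sum_congr rfl fun j _ => ?_
    rw [Matrix.mul_apply, Finset.sum_mul, Matrix.conjTranspose_apply]

end Pool.Agent.J4H91.QB
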