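import Pool.Agent.J4H61.QB.Stm4
import Pool.Agent.J4H89.QB.Diag

set_option autoImplicit false

/-! Project QB (helper61), piece ALL: the maximum is attained at the identity. -/

open Matrix MeasureTheory
open scoped ComplexOrder

namespace Pool.Agent.J4H91.QB
open Pool.Agent.V11219.MomentOp Pool.Agent.J4H61.QB

theorem cont_coe {d : ℕ} : Continuous fun U : Matrix.unitaryGroup (Fin d) ℂ => (U : Mat d) :=
  continuous_subtype_val

theorem cont_tr {d : ℕ} (B : Mat d) :
    Continuous fun U : Matrix.unitaryGroup (Fin d) ℂ => Matrix.trace (B * (U : Mat d)ᴴ) :=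
  (continuous_const.matrix_mul cont_coe.matrix_conjTranspose).matrix_trace

theorem cont_tr1 {d : ℕ} :
    Continuous fun U : Matrix.unitaryGroup (Fin d) ℂ => Matrix.trace (U : Mat d) :=
  cont_coe.matrix_trace

theorem integ {d : ℕ} {f : Matrix.unitaryGroup (Fin d) ℂ → ℂ} (hf : Continuous f) :
    Integrable f (haarU (Fin d)) :=
  hf.integrable_of_hasCompactSupport (HasCompactSupport.of_compactSpace _)

theorem deriv_param {d : ℕ} (t : ℕ) (a b c : Matrix.unitaryGroup (Fin d) ℂ → ℂ) (ha : Continuous a)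
    (hb : Continuous b) (hc : Continuous c) (s₀ : ℝ) :
    HasDerivAt (fun s : ℝ => ∫ U, c U * (a U + (s : ℂ) * b U) ^ t ∂(haarU (Fin d)))
      (∫ U, c U * (t * (a U + (s₀ : ℂ) * b U) ^ (t - 1) * b U) ∂(haarU (Fin d))) s₀ := by
  have hcont : Continuous fun p : ℝ × Matrix.unitaryGroup (Fin d) ℂ =>
      c p.2 * (t * (a p.2 + (p.1 : ℂ) * b p.2) ^ (t - 1) * b p.2) := by fun_prop
  obtain ⟨M, hM⟩ := ((isCompact_Icc (a := s₀ - 1) (b := s₀ + 1)).prod
    (isCompact_univ (X := Matrix.unitaryGroup (Fin d) ℂ))).exists_bound_of_continuousOn hcont.continuousOn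
  refine (hasDerivAt_integral_of_dominated_loc_of_deriv_le (μ := haarU (Fin d))
    (F := fun (s : ℝ) U => c U * (a U + (s : ℂ) * b U) ^ t)
    (F' := fun (s : ℝ) U => c U * (t * (a U + (s : ℂ) * b U) ^ (t - 1) * b U))
    (bound := fun _ => M) (Icc_mem_nhds (by linarith : s₀ - 1 < s₀) (by linarith : s₀ < s₀ + 1))
    ?_ ?_ ?_ ?_ ?_ ?_).2
  · refine Filter.Eventually.of_forall fun s => ?_
    exact (integ (by fun_prop)).aestronglyMeasurable
  · exact integ (by fun_prop)
  · exact (integ (by fun_prop)).aestronglyMeasurable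
  · refine Filter.Eventually.of_forall fun U s hs => ?_
    exact hM (s, U) ⟨hs, Set.mem_univ _⟩
  · exact integrable_const _
  · refine Filter.Eventually.of_forall fun U s _ => ?_
    have h1 : HasDerivAt (fun s : ℝ => a U + (s : ℂ) * b U) (b U) s := by
      have h2 : HasDerivAt (fun s : ℝ => (s : ℂ)) 1 s := Complex.ofRealCLM.hasDerivAt
      have h3 := (h2.mul_const (b U)).const_add (a U)
      rw [one_mul] at h3
      exact h3
    exact (h1.pow t).const_mul (c U)

theorem deriv_F {d : ℕ} (t : ℕ) (A B : Mat d) (s₀ : ℝ) :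
    HasDerivAt (fun s : ℝ => F d t (A + (s : ℂ) • B))
      (∫ U : Matrix.unitaryGroup (Fin d) ℂ, (Matrix.trace (U : Mat d)) ^ t *
        (t * (Matrix.trace ((A + (s₀ : ℂ) • B) * (U : Mat d)ᴴ)) ^ (t - 1) *
          Matrix.trace (B * (U : Mat d)ᴴ)) ∂(haarU (Fin d))).re s₀ := by
  have ha : Continuous (fun U : Matrix.unitaryGroup (Fin d) ℂ => Matrix.trace (A * (U : Mat d)ᴴ)) := cont_tr A
  have hb : Continuous (fun U : Matrix.unitaryGroup (Fin d) ℂ => Matrix.trace (B * (U : Mat d)ᴴ)) := cont_tr B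
  have hc : Continuous (fun U : Matrix.unitaryGroup (Fin d) ℂ => (Matrix.trace (U : Mat d)) ^ t) :=
    cont_tr1.pow t
  have h1 := deriv_param (d := d) t _ _ _ ha hb hc s₀
  have e : ∀ (s : ℝ) (U : Matrix.unitaryGroup (Fin d) ℂ), Matrix.trace (A * (U : Mat d)ᴴ) +
      (s : ℂ) * Matrix.trace (B * (U : Mat d)ᴴ) = Matrix.trace ((A + (s : ℂ) • B) * (U : Mat d)ᴴ) := by
    intro s U
    rw [Matrix.add_mul, Matrix.trace_add, Matrix.smul_mul, Matrix.trace_smul, smul_eq_mul]
  simp only [e] at h1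
  exact Complex.reCLM.hasFDerivAt.comp_hasDerivAt s₀ h1

theorem dg_add {d : ℕ} (u v : Fin d → ℝ) (s : ℝ) :
    dg (fun i => u i + s * v i) = dg u + (s : ℂ) • dg v := by
  unfold dg
  rw [← Matrix.diagonal_smul, Matrix.diagonal_add]
  congr 1
  funext i
  simp

theorem dg_one {d : ℕ} : dg (fun _ : Fin d => (1 : ℝ)) = 1 := by
  unfold dg
  simp

theorem seg {d : ℕ} (t : ℕ) (Y B : Mat d) (s : ℝ) (hY : Y = 1 + (s : ℂ) • B) :
    s * (∫ U : Matrix.unitaryGroup (Fin d) ℂ, (Matrix.trace (U : Mat d)) ^ (t + 1) *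
        (((t + 1 : ℕ) : ℂ) * (Matrix.trace ((1 + (s : ℂ) • B) * (U : Mat d)ᴴ)) ^ (t + 1 - 1) *
          Matrix.trace (B * (U : Mat d)ᴴ)) ∂(haarU (Fin d))).re =
      ((t + 1 : ℕ) : ℝ) * (F d (t + 1) Y - G d (t + 1) Y) := by
  have hf1 : Continuous (fun U : Matrix.unitaryGroup (Fin d) ℂ => (Matrix.trace (U : Mat d)) ^ (t + 1) *
      (Matrix.trace (Y * (U : Mat d)ᴴ)) ^ (t + 1)) := (cont_tr1.pow _).mul ((cont_tr Y).pow _)
  have hf2' : Continuous (fun U : Matrix.unitaryGroup (Fin d) ℂ => Matrix.trace (U : Mat d)ᴴ) :=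
    cont_coe.matrix_conjTranspose.matrix_trace
  have hf2 : Continuous (fun U : Matrix.unitaryGroup (Fin d) ℂ => (Matrix.trace (U : Mat d)) ^ (t + 1) *
      ((Matrix.trace (Y * (U : Mat d)ᴴ)) ^ (t + 1 - 1) * Matrix.trace (U : Mat d)ᴴ)) :=
    (cont_tr1.pow _).mul (((cont_tr Y).pow _).mul hf2')
  rw [← Complex.re_ofReal_mul, ← integral_const_mul]
  unfold F G
  rw [← Complex.sub_re, ← integral_sub (integ hf1) (integ hf2)]
  have e : ∀ z : ℂ, ((t + 1 : ℕ) : ℝ) * z.re = (((t + 1 : ℕ) : ℂ) * z).re := by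
    intro z
    rw [← Complex.ofReal_natCast, Complex.re_ofReal_mul]
  rw [e, ← integral_const_mul]
  congr 1
  refine integral_congr_ae (Filter.Eventually.of_forall fun U => ?_)
  have h1 : (s : ℂ) * Matrix.trace (B * (U : Mat d)ᴴ) =
      Matrix.trace (Y * (U : Mat d)ᴴ) - Matrix.trace (U : Mat d)ᴴ := by
    rw [hY, Matrix.add_mul, Matrix.trace_add, Matrix.smul_mul, Matrix.trace_smul, smul_eq_mul,
      Matrix.one_mul]
    ring
  show (s : ℂ) * ((Matrix.trace (U : Mat d)) ^ (t + 1) *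
        (((t + 1 : ℕ) : ℂ) * (Matrix.trace ((1 + (s : ℂ) • B) * (U : Mat d)ᴴ)) ^ (t + 1 - 1) *
          Matrix.trace (B * (U : Mat d)ᴴ))) = ((t + 1 : ℕ) : ℂ) * ((Matrix.trace (U : Mat d)) ^ (t + 1) *
      (Matrix.trace (Y * (U : Mat d)ᴴ)) ^ (t + 1) - (Matrix.trace (U : Mat d)) ^ (t + 1) *
      ((Matrix.trace (Y * (U : Mat d)ᴴ)) ^ (t + 1 - 1) * Matrix.trace (U : Mat d)ᴴ))
  rw [← hY]
  calc _ = (Matrix.trace (U : Mat d)) ^ (t + 1) * (((t + 1 : ℕ) : ℂ) *
        (Matrix.trace (Y * (U : Mat d)ᴴ)) ^ (t + 1 - 1)) * ((s : ℂ) * Matrix.trace (B * (U : Mat d)ᴴ)) := by ring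
    _ = _ := by
      rw [h1, Nat.add_sub_cancel]
      ring

theorem strict_case (hKK : S_KK) {d : ℕ} (hd : 0 < d) (t : ℕ) (x : Fin d → ℝ) (hx : StrictAnti x)
    (hx0 : ∀ i, 0 < x i) (hs : ∑ i, x i = d) : F d (t + 1) (dg x) ≤ F d (t + 1) 1 := by
  set B : Mat d := dg (fun i => x i - 1) with hB
  set φ : ℝ → ℝ := fun s => F d (t + 1) (1 + (s : ℂ) • B) with hφ
  have hder : ∀ s, HasDerivAt φ _ s := fun s => deriv_F (t + 1) 1 B s
  have hY : ∀ s : ℝ, 1 + (s : ℂ) • B = dg (fun i => 1 + s * (x i - 1)) := by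
    intro s
    rw [dg_add (fun _ => 1) (fun i => x i - 1) s, dg_one]
  have hanti : AntitoneOn φ (Set.Icc 0 1) := by
    apply antitoneOn_of_deriv_nonpos (convex_Icc 0 1)
    · exact fun s _ => (hder s).continuousAt.continuousWithinAt
    · exact fun s _ => (hder s).differentiableAt.differentiableWithinAt
    · intro s hs'
      rw [interior_Icc] at hs'
      rw [(hder s).deriv]
      have h1 := seg t (1 + (s : ℂ) • B) B s rfl
      have h2 := hKK d t (fun i => 1 + s * (x i - 1)) (by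
        intro i j hij
        have := hx hij
        have h3 := mul_lt_mul_of_pos_left (sub_lt_sub_right this 1) hs'.1
        linarith) (by
        intro i
        have := mul_pos hs'.1 (hx0 i)
        nlinarith [hs'.2])
      have h3 : ∑ i : Fin d, (1 + s * (x i - 1)) = d := by
        rw [Finset.sum_add_distrib, ← Finset.mul_sum, Finset.sum_sub_distrib, hs]
        simp
      rw [h3, ← hY] at h2
      have hd' : (0 : ℝ) < d := by exact_mod_cast hd
      have h4 : F d (t + 1) (1 + (s : ℂ) • B) - G d (t + 1) (1 + (s : ℂ) • B) ≤ 0 := by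
        have := le_of_mul_le_mul_left h2 hd'
        linarith
      have h5 : ((t + 1 : ℕ) : ℝ) * (F d (t + 1) (1 + (s : ℂ) • B) - G d (t + 1) (1 + (s : ℂ) • B)) ≤ 0 :=
        mul_nonpos_of_nonneg_of_nonpos (Nat.cast_nonneg _) h4
      rw [← h1] at h5
      by_contra hcon
      rw [not_le] at hcon
      exact absurd h5 (not_le.2 (mul_pos hs'.1 hcon))
  have h6 := hanti (Set.left_mem_Icc.2 zero_le_one) (Set.right_mem_Icc.2 zero_le_one) zero_le_one
  have h7 : φ 1 = F d (t + 1) (dg x) := by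
    show F d (t + 1) (1 + ((1 : ℝ) : ℂ) • B) = _
    rw [hY]
    congr 2
    funext i
    ring
  have h8 : φ 0 = F d (t + 1) 1 := by
    show F d (t + 1) (1 + ((0 : ℝ) : ℂ) • B) = _
    rw [Complex.ofReal_zero, zero_smul, add_zero]
  rw [h7, h8] at h6
  exact h6

theorem anti_case (hKK : S_KK) {d : ℕ} (hd : 0 < d) (t : ℕ) (x : Fin d → ℝ) (hx : Antitone x)
    (hx0 : ∀ i, 0 ≤ x i) (hs : ∑ i, x i = d) : F d (t + 1) (dg x) ≤ F d (t + 1) 1 := by
  have hd' : (0 : ℝ) < d := by exact_mod_cast hd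
  set S : ℝ := ∑ j : Fin d, ((d : ℝ) - (j : ℕ)) with hS
  have hpos : ∀ j : Fin d, 0 < (d : ℝ) - (j : ℕ) := by
    intro j
    have : ((j : ℕ) : ℝ) < d := by exact_mod_cast j.2
    linarith
  have hS0 : 0 < S := Finset.sum_pos (fun j _ => hpos j) ⟨⟨0, hd⟩, Finset.mem_univ _⟩
  set w : Fin d → ℝ := fun i => d * ((d : ℝ) - (i : ℕ)) / S with hw
  have hw0 : ∀ i, 0 < w i := fun i => div_pos (mul_pos hd' (hpos i)) hS0
  have hwa : StrictAnti w := by
    intro i j hij
    have : ((i : ℕ) : ℝ) < (j : ℕ) := by exact_mod_cast hij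
    show d * ((d : ℝ) - (j : ℕ)) / S < d * ((d : ℝ) - (i : ℕ)) / S
    apply div_lt_div_of_pos_right _ hS0
    apply mul_lt_mul_of_pos_left _ hd'
    linarith
  have hws : ∑ i, w i = d := by
    show ∑ i : Fin d, d * ((d : ℝ) - (i : ℕ)) / S = d
    rw [← Finset.sum_div, ← Finset.mul_sum, ← hS, mul_div_assoc, div_self hS0.ne', mul_one]
  have hder := deriv_F (d := d) (t + 1) (dg x) (dg (fun i => w i - x i)) 0
  have hc := hder.continuousAt
  have h1 : Filter.Tendsto (fun s : ℝ => F d (t + 1) (dg x + (s : ℂ) • dg (fun i => w i - x i)))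
      (nhdsWithin 0 (Set.Ioi 0)) (nhds (F d (t + 1) (dg x))) := by
    have h2 := hc.tendsto
    rw [Complex.ofReal_zero, zero_smul, add_zero] at h2
    exact h2.mono_left nhdsWithin_le_nhds
  refine le_of_tendsto h1 ?_
  filter_upwards [Ioo_mem_nhdsGT (show (0 : ℝ) < 1 by norm_num)] with s hs'
  rw [← dg_add]
  apply strict_case hKK hd t
  · intro i j hij
    have h3 := hx hij.le
    have h4 := hwa hij
    have h5 : (1 - s) * x j ≤ (1 - s) * x i := mul_le_mul_of_nonneg_left h3 (by linarith [hs'.2])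
    have h6 : s * w j < s * w i := mul_lt_mul_of_pos_left h4 hs'.1
    show x j + s * (w j - x j) < x i + s * (w i - x i)
    linarith
  · intro i
    have h5 : 0 ≤ (1 - s) * x i := mul_nonneg (by linarith [hs'.2]) (hx0 i)
    have h6 : 0 < s * w i := mul_pos hs'.1 (hw0 i)
    show 0 < x i + s * (w i - x i)
    linarith
  · show ∑ i, (x i + s * (w i - x i)) = d
    rw [Finset.sum_add_distrib, ← Finset.mul_sum, Finset.sum_sub_distrib, hs, hws]
    ring

theorem conj_perm {d : ℕ} (σ : Equiv.Perm (Fin d)) (D : Mat d) :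
    (1 : Mat d).submatrix σ id * D * star ((1 : Mat d).submatrix σ id) = D.submatrix σ σ := by
  ext i j
  rw [Matrix.mul_apply, Finset.sum_eq_single (σ j)]
  · rw [Matrix.star_apply, Matrix.submatrix_apply, id_eq, Matrix.one_apply_eq, star_one, mul_one,
      Matrix.mul_apply, Finset.sum_eq_single (σ i)]
    · rw [Matrix.submatrix_apply, id_eq, Matrix.one_apply_eq, one_mul, Matrix.submatrix_apply]
    · intro k _ hk
      rw [Matrix.submatrix_apply, id_eq, Matrix.one_apply_ne (Ne.symm hk), zero_mul]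
    · intro h
      exact absurd (Finset.mem_univ _) h
  · intro k _ hk
    rw [Matrix.star_apply, Matrix.submatrix_apply, id_eq, Matrix.one_apply_ne (Ne.symm hk), star_zero, mul_zero]
  · intro h
    exact absurd (Finset.mem_univ _) h

theorem t_ALL : S_KK → S_ALL := by
  intro hKK d t X hX htr
  rcases t with _ | t
  · unfold F
    simp
  rcases Nat.eq_zero_or_pos d with hd | hd
  · subst hd
    rw [Subsingleton.elim X 1]
  have hH := hX.isHermitian
  have hsp := hH.spectral_theorem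
  set x : Fin d → ℝ := hH.eigenvalues with hx
  have hxs : ∑ i, x i = d := by
    have h1 := hH.trace_eq_sum_eigenvalues
    rw [htr] at h1
    have h2 := congrArg Complex.re h1
    simp at h2
    exact h2.symm
  have h3 : F d (t + 1) X = F d (t + 1) (dg x) := by
    rw [← Pool.Agent.J4H89.QB.F_conj (t + 1) hH.eigenvectorUnitary (dg x)]
    congr 1
  set σ : Equiv.Perm (Fin d) := Tuple.sort (fun i => - x i) with hσ
  have hmono := Tuple.monotone_sort (fun i => - x i)
  have h4 : F d (t + 1) (dg x) = F d (t + 1) (dg (x ∘ σ)) := by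
    have hP : (1 : Mat d).submatrix σ id ∈ Matrix.unitaryGroup (Fin d) ℂ := by
      rw [Matrix.mem_unitaryGroup_iff]
      have := conj_perm σ (1 : Mat d)
      rw [Matrix.mul_one] at this
      rw [this, Matrix.submatrix_one_equiv]
    have h5 := Pool.Agent.J4H89.QB.F_conj (t + 1) ⟨(1 : Mat d).submatrix σ id, hP⟩ (dg x)
    rw [← h5]
    congr 1
    show (1 : Mat d).submatrix σ id * dg x * star ((1 : Mat d).submatrix σ id) = dg (x ∘ σ)
    rw [conj_perm]
    unfold dg
    rw [Matrix.submatrix_diagonal_equiv]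
    rfl
  rw [h3, h4]
  apply anti_case hKK hd t
  · intro i j hij
    have := hmono hij
    simp only [Function.comp] at this
    show x (σ j) ≤ x (σ i)
    linarith
  · intro i
    exact hX.eigenvalues_nonneg _
  · rw [← hxs]
    exact Equiv.sum_comp σ x

end Pool.Agent.J4H91.QB
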